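import Pool.Agent.H494R3.NK.Stmts

/-! Tasks Domain, Atom and Shift of project H494-NK. -/

set_option autoImplicit false

namespace Pool.Agent.H449R3.NK

open Pool.Agent.H494R3.NK PowerSeries

theorem taskDomain : TaskDomain := by
  intro x y hxy
  obtain ⟨N, hN⟩ := x.2
  obtain ⟨M, hM⟩ := y.2
  by_cases hc : x.1 (X ^ N) = 0
  · left
    exact ⟨N, fun h => by rw [hN, hc, mul_zero]⟩
  by_cases hd : y.1 (X ^ M) = 0
  · right
    exact ⟨M, fun h => by rw [hM, hd, mul_zero]⟩
  exfalso
  have h1 : x.1 (y.1 (X ^ N * X ^ M)) = 0 := by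
    have h2 : (x * y).1 = 0 := by rw [hxy]; rfl
    have h3 : (x * y).1 (X ^ N * X ^ M) = 0 := by rw [h2]; rfl
    exact h3
  rw [hM, mul_comm, hN] at h1
  rcases mul_eq_zero.1 h1 with h | h
  · exact hd h
  · exact hc h

theorem C_apply (e : Module.End ℚ (PowerSeries ℚ)) (a : ℚ) : e (C a) = C a * e 1 := by
  have h1 : (C a : PowerSeries ℚ) = a • 1 := by
    rw [PowerSeries.smul_eq_C_mul, mul_one]
  rw [h1, map_smul, PowerSeries.smul_eq_C_mul, smul_one_mul, PowerSeries.smul_eq_C_mul]

theorem taskAtom : TaskAtom := by
  intro e f he hf hef hfe hsum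
  have h1 : r0 * e = e := by rw [← hsum, add_mul, he, hfe, add_zero]
  have h2 : e * r0 = e := by rw [← hsum, mul_add, he, hef, add_zero]
  have h3 : ∀ g, e.1 g = C (constantCoeff (e.1 g)) := by
    intro g
    have : (r0 * e).1 g = e.1 g := by rw [h1]
    exact this.symm
  have h4 : ∀ g, e.1 g = e.1 (C (constantCoeff g)) := by
    intro g
    have : (e * r0).1 g = e.1 g := by rw [h2]
    exact this.symm
  set l := constantCoeff (e.1 1) with hl
  have h5 : e.1 1 = C l := h3 1
  have h6 : ∀ g, e.1 g = C (constantCoeff g * l) := by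
    intro g
    rw [h4 g, C_apply, h5, ← map_mul]
  have h7 : l * l = l := by
    have h8 : e.1 (e.1 1) = e.1 1 := by
      have : (e * e).1 1 = e.1 1 := by rw [he]
      exact this
    rw [h5, h6] at h8
    have h9 := congrArg constantCoeff h8
    simpa using h9
  have h10 : l = 0 ∨ l = 1 := by
    have : l * (l - 1) = 0 := by rw [mul_sub, h7, mul_one, sub_self]
    rcases mul_eq_zero.1 this with h | h
    · exact Or.inl h
    · exact Or.inr (sub_eq_zero.1 h)
  rcases h10 with h | h
  · left
    apply Subtype.ext
    apply LinearMap.ext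
    intro g
    rw [h6 g, h, mul_zero, map_zero]
    rfl
  · right
    have h11 : e = r0 := by
      apply Subtype.ext
      apply LinearMap.ext
      intro g
      rw [h6 g, h, mul_one]
      rfl
    rw [h11] at hsum
    simpa using hsum

theorem taskShift : TaskShift := by
  let s : R0 := ⟨{ toFun := fun g => g * X
                   map_add' := fun g h => by rw [add_mul]
                   map_smul' := fun c g => by simp },
    0, fun h => by simp⟩
  let tf : PowerSeries ℚ → PowerSeries ℚ := fun g => mk fun n => coeff (n + 1) g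
  have htX : ∀ h : PowerSeries ℚ, tf (h * X) = h := by
    intro h
    ext n
    simp [tf, coeff_succ_mul_X]
  let t : R0 := ⟨{ toFun := tf
                   map_add' := fun g h => by ext n; simp [tf]
                   map_smul' := fun c g => by ext n; simp [tf] },
    1, fun h => by
      show tf (h * X ^ 1) = h * tf (X ^ 1)
      have := htX 1
      rw [one_mul] at this
      rw [pow_one, htX, this, mul_one]⟩
  refine ⟨s, t, ?_, ?_⟩
  · apply Subtype.ext
    apply LinearMap.ext
    intro g
    exact htX g
  · apply Subtype.ext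
    apply LinearMap.ext
    intro g
    show tf g * X + C (constantCoeff g) = g
    exact (eq_shift_mul_X_add_const g).symm

end Pool.Agent.H449R3.NK
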